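import Pool.Agent.X61.RI.Hyp

/-!
# The theorem of Shafarevich for hyperelliptic curves and an infinite random set of primes

Let `K` be a number field, `S₀` a finite set of primes of `K` which contains the primes above 2, and
`T` a random set of primes: the events `v ∈ T` are independent and of probability at most
`N(v) ^ (-τ)`, where `τ > 2/3`. (For probabilities `N(v) ^ (-τ)` with `τ ≤ 1` such a set `T` is
infinite.) We consider the hyperelliptic curves (for `n = 4`: curves of genus one)

`y ^ 2 = D ∏_{i = 1}^{n} det (P_i, (x, z))`, `n = 2 g + 2`,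

of arbitrary genus `g ≥ 1` with branch points `P_1, …, P_n` in `ℙ¹(K)`, up to isomorphisms over `K`
(so the twists of a curve are different curves).

1. With probability one there are, for all genera together, only finitely many of these curves,
   up to isomorphisms over `K`, which have good reduction at all primes outside `S₀ ∪ T` and
   semistable reduction at the primes of `T` outside `S₀`.
2. For `0 < δ < τ - 2/3` there is a constant `C` such that for every `R > 0` with probability at least
   `1 - C R ^ (-δ)` all of these curves, of all genera, with semistable reduction outside `S₀` and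
   good reduction outside `S₀` and the primes of `T` of norm at least `R` have good reduction
   outside `S₀`.

In fact semistable reduction at `v` can be replaced by a weaker condition: the curve has a
`v`-integral equation `y ^ 2 = F(x, z)` of this form such that the form `F` modulo `v` is not zero and
has at least three different zeros on the projective line.
-/

set_option autoImplicit false

namespace Pool.Agent.Results.MP_f89135_nt.HyperellipticCurves

open NumberField IsDedekindDomain MeasureTheory ProbabilityTheory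
open Pool.Agent.X61.RI.Tup

/-- the absolute norm of a prime -/
noncomputable def norm {K : Type} [Field K] [NumberField K] (v : HeightOneSpectrum (𝓞 K)) : ℝ :=
  (Ideal.absNorm v.asIdeal : ℝ)

variable {K : Type} [Field K] [NumberField K]

theorem three {n : ℕ} (hn : 4 ≤ n) : ∃ i₀ i₁ i₂ : Fin n, i₀ ≠ i₁ ∧ i₀ ≠ i₂ ∧ i₁ ≠ i₂ := by
  refine ⟨⟨0, by omega⟩, ⟨1, by omega⟩, ⟨2, by omega⟩, ?_, ?_, ?_⟩ <;>
  · rw [Ne, Fin.mk.injEq]
    omega

theorem semistable_of_good {n : ℕ} (hn : 4 ≤ n) {v : HeightOneSpectrum (𝓞 K)} {D : K}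
    {P : Fin n → Fin 2 → K} (h : GoodCurve v D P) : SemistableCurve v D P := by
  obtain ⟨D', Q, h1, h2, h3, h4⟩ := h
  obtain ⟨i₀, i₁, i₂, h01, h02, h12⟩ := three hn
  refine ⟨D', Q, h1, h2, h3, fun i => ?_, i₀, i₁, i₂, h4 _ _ h01, h4 _ _ h02, h4 _ _ h12⟩
  by_contra hcon
  push Not at hcon
  obtain ⟨j, hj⟩ : ∃ j, i ≠ j := by
    by_cases h : i = i₀
    · exact ⟨i₁, by rw [h]; exact h01⟩
    · exact ⟨i₀, h⟩
  have l0 : v.valuation K (Q i 0) < 1 := lt_of_le_of_ne (h3 i 0) (hcon 0)
  have l1 : v.valuation K (Q i 1) < 1 := lt_of_le_of_ne (h3 i 1) (hcon 1)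
  have h5 : v.valuation K (det (Q i) (Q j)) < 1 := by
    unfold det
    refine Valuation.map_sub_lt _ ?_ ?_
    · rw [map_mul]
      exact lt_of_le_of_lt (mul_le_of_le_one_right' (h3 j 1)) l0
    · rw [map_mul]
      exact lt_of_le_of_lt (mul_le_of_le_one_right' (h3 j 0)) l1
  rw [h4 i j hj] at h5
  exact lt_irrefl _ h5

/-- **Hyperelliptic curves and infinite random sets of bad primes.** Let `K` be a number field,
`S₀` a finite set of primes of `K` containing those above `2`, and `τ > 2/3`. Let
`T = {v | ω ∈ E v}` be a random set of primes, where the events `E v` are independent, of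
probability at most `N(v) ^ (-τ)`. The pair `(D, P)`, where `P` is an `n`-tuple of different points,
`n ≥ 4` even, stands for the curve `y ^ 2 = D ∏ det (P_i, (x, z))`.

(1) With probability one there is a finite set of such curves such that each curve `(D, P)`, `n ≥ 4`
arbitrary, with good reduction at all primes outside `S₀ ∪ T` and semistable reduction at the primes
of `T` outside `S₀`, is isomorphic over `K` to one of them.

(2) For `0 < δ < τ - 2/3` there is a constant `C`, depending on `K`, `S₀`, `τ` and `δ` only, such that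
for every `R > 0` with probability at least `1 - C R ^ (-δ)` all curves `(D, P)`, `n ≥ 4` arbitrary,
with semistable reduction outside `S₀` and good reduction outside `S₀` and the primes of `T` of norm
at least `R`, have good reduction outside `S₀`. -/
theorem result (K : Type) [Field K] [NumberField K] (S₀ : Set (HeightOneSpectrum (𝓞 K)))
    (hS₀ : S₀.Finite) (_h2 : ∀ v : HeightOneSpectrum (𝓞 K), v ∉ S₀ → v.valuation K 2 = 1)
    (τ : ℝ) (hτ : 2 / 3 < τ) :
    (∀ (Ω : Type) [MeasurableSpace Ω] (μ : Measure Ω) (E : HeightOneSpectrum (𝓞 K) → Set Ω),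
      iIndepSet E μ → (∀ v, μ (E v) ≤ ENNReal.ofReal (norm v ^ (-τ))) →
      ∀ᵐ ω ∂μ, ∃ F : Set (Σ n : ℕ, K × (Fin n → Fin 2 → K)), F.Finite ∧
        ∀ (n : ℕ) (D : K) (P : Fin n → Fin 2 → K), Even n → 4 ≤ n → D ≠ 0 → Distinct P →
          (∀ v, v ∉ S₀ → ω ∉ E v → GoodCurve v D P) →
          (∀ v, v ∉ S₀ → ω ∈ E v → SemistableCurve v D P) →
          ∃ D' Q, (⟨n, (D', Q)⟩ : Σ n : ℕ, K × (Fin n → Fin 2 → K)) ∈ F ∧ IsoCurve D P D' Q) ∧
    (∀ δ : ℝ, 0 < δ → δ < τ - 2 / 3 → ∃ C : ℝ, 0 < C ∧
      ∀ (Ω : Type) [MeasurableSpace Ω] (μ : Measure Ω) (E : HeightOneSpectrum (𝓞 K) → Set Ω),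
      iIndepSet E μ → (∀ v, μ (E v) ≤ ENNReal.ofReal (norm v ^ (-τ))) → ∀ R : ℝ, 0 < R →
      μ {ω | ¬ ∀ (n : ℕ) (D : K) (P : Fin n → Fin 2 → K), Even n → 4 ≤ n → D ≠ 0 → Distinct P →
        (∀ v, v ∉ S₀ → ¬ (R ≤ norm v ∧ ω ∈ E v) → GoodCurve v D P) →
        (∀ v, v ∉ S₀ → SemistableCurve v D P) → ∀ v, v ∉ S₀ → GoodCurve v D P} ≤
          ENNReal.ofReal (C * R ^ (-δ))) := by
  refine ⟨fun Ω _ μ E hi hE => ?_, fun δ hδ hδτ => ?_⟩
  · filter_upwards [Pool.Agent.X61.RI.units_finite S₀ hS₀ hτ hi hE] with ω hω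
    obtain ⟨F, hF, h⟩ := finite_forms hω
    obtain ⟨G, hG, h'⟩ := curves_finite hF hS₀
    refine ⟨G, hG, fun n D P hn hn4 hD hP hg hs => h' n D P hn hD hP ?_ fun v hv => ?_⟩
    · refine h n P (by omega) hP ?_
      intro i j k l hij hik hil hjk hjl hkl
      exact ⟨cr_off hP hij hik hil hjk hjl hkl, fun v hv hv' =>
        unitAt_of_good (hg v hv hv').tuple hij hik hil hjk hjl hkl⟩
    · by_cases hv' : ω ∈ E v
      · exact hs v hv hv'
      · exact semistable_of_good hn4 (hg v hv hv')
  · obtain ⟨C, hC, h⟩ := Pool.Agent.X61.RI.units_small S₀ hS₀ hδ hδτ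
    refine ⟨C, hC, fun Ω _ μ E hi hE R hR => (measure_mono ?_).trans (h μ E hi hE R hR)⟩
    intro ω hω
    by_contra hcon
    apply hω
    intro n D P hn hn4 hD hP hg hs v hv
    obtain ⟨i₀, i₁, i₂, h01, h02, h12⟩ := three hn4
    refine good_of_semistable hn hD (hs v hv) ?_
    refine good_of_unitAt hP h01 h02 h12 fun i j hi0 hi1 hj0 hj1 hij => ?_
    by_contra hu
    exact hcon ⟨cr (P i₀) (P i₁) (P i) (P j),
      cr_off hP h01 (Ne.symm hi0) (Ne.symm hj0) (Ne.symm hi1) (Ne.symm hj1) hij,
      fun w hw hw' => unitAt_of_good (hg w hw hw').tuple h01 (Ne.symm hi0) (Ne.symm hj0)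
        (Ne.symm hi1) (Ne.symm hj1) hij, v, hv, hu⟩

end Pool.Agent.Results.MP_f89135_nt.HyperellipticCurves
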