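import Pool.Agent.X61.RI.Three

/-!
# The conjecture of Shafarevich for infinite random sets of primes of bad reduction

Let `K` be a number field, `S₀` a finite set of primes of `K` and `T` a random set of primes: the
events `v ∈ T` are independent and of probability at most `N(v) ^ (-τ)`, where `τ > 2/3`. For
`τ ≤ 1` and probabilities `N(v) ^ (-τ)` such a set `T` is infinite.

1. With probability one, there are only finitely many sets of `n ≥ 3` points of the projective line
   over `K`, `n` arbitrary, up to automorphisms, which have good reduction at all primes outside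
   `S₀ ∪ T`. These are the sets of branch points of the hyperelliptic curves `y ^ 2 = f(x)`, of
   arbitrary genus, and more generally of the cyclic covers of the line, with branch points in
   `K`: outside the primes dividing the degree of the cover, the branch points have good reduction
   where the curve has (potentially) good reduction.
2. With probability one, the elliptic curves over `K` with full 2-torsion and `j`-invariant
   integral outside `S₀ ∪ T` (for example with good reduction outside `S₀ ∪ T`) have only finitely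
   many `j`-invariants, if `S₀` contains the primes above 2.
3. With probability at least `1 - C R ^ (-δ)` the primes of `T` of norm at least `R` do not matter
   in 1.
-/

set_option autoImplicit false

namespace Pool.Agent.Results.MP_f89135_nt.RandomBadReduction

open NumberField IsDedekindDomain MeasureTheory ProbabilityTheory
open Pool.Agent.X61.RI (UnitAt)

variable {K : Type} [Field K] [NumberField K]

/-- the determinant of two vectors -/
def det (x y : Fin 2 → K) : K := x 0 * y 1 - x 1 * y 0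

/-- the vectors `P i` are coordinates of distinct points of the projective line -/
def Distinct {n : ℕ} (P : Fin n → Fin 2 → K) : Prop := ∀ i j, i ≠ j → det (P i) (P j) ≠ 0

/-- the points with the coordinates `P i` are mapped to the points with the coordinates `Q i` by
an automorphism of the projective line over `K` -/
def Isomorphic {n : ℕ} (P Q : Fin n → Fin 2 → K) : Prop :=
  ∃ (a b c d : K) (u : Fin n → K), a * d - b * c ≠ 0 ∧ (∀ i, u i ≠ 0) ∧
    ∀ i, Q i 0 = u i * (a * P i 0 + b * P i 1) ∧ Q i 1 = u i * (c * P i 0 + d * P i 1)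

/-- good reduction at `v`: after an automorphism of the projective line the points have
`v`-integral coordinates and stay distinct modulo `v` -/
def GoodAt {n : ℕ} (v : HeightOneSpectrum (𝓞 K)) (P : Fin n → Fin 2 → K) : Prop :=
  ∃ Q, Isomorphic P Q ∧ (∀ i j, v.valuation K (Q i j) ≤ 1) ∧
    ∀ i j, i ≠ j → v.valuation K (det (Q i) (Q j)) = 1

/-- the absolute norm of a prime -/
noncomputable def norm (v : HeightOneSpectrum (𝓞 K)) : ℝ := (Ideal.absNorm v.asIdeal : ℝ)

/-! ### cross ratios -/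

/-- the coordinate of `w` for which `x`, `y`, `z` are `∞`, `0`, `1` -/
def cr (x y z w : Fin 2 → K) : K := det w y * det z x / (det w x * det z y)

omit [NumberField K] in
theorem det_comm (x y : Fin 2 → K) : det x y = -det y x := by
  unfold det
  ring

omit [NumberField K] in
theorem det_self (x : Fin 2 → K) : det x x = 0 := by
  unfold det
  ring

omit [NumberField K] in
theorem cr_sub_one {x y z w : Fin 2 → K} (h1 : det w x ≠ 0) (h2 : det z y ≠ 0) :
    cr x y z w - 1 = -(det w z * det x y) / (det w x * det z y) := by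
  unfold cr
  rw [div_sub_one (mul_ne_zero h1 h2)]
  congr 1
  unfold det
  ring

omit [NumberField K] in
theorem det_iso {n : ℕ} {P Q : Fin n → Fin 2 → K} {a b c d : K} {u : Fin n → K}
    (h : ∀ i, Q i 0 = u i * (a * P i 0 + b * P i 1) ∧ Q i 1 = u i * (c * P i 0 + d * P i 1))
    (i j : Fin n) : det (Q i) (Q j) = u i * u j * (a * d - b * c) * det (P i) (P j) := by
  unfold det
  rw [(h i).1, (h i).2, (h j).1, (h j).2]
  ring

omit [NumberField K] in
theorem distinct_iso {n : ℕ} {P Q : Fin n → Fin 2 → K} (hP : Distinct P)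
    (h : Isomorphic P Q) : Distinct Q := by
  obtain ⟨a, b, c, d, u, hD, hu, hQ⟩ := h
  intro i j hij
  rw [det_iso hQ]
  exact mul_ne_zero (mul_ne_zero (mul_ne_zero (hu i) (hu j)) hD) (hP i j hij)

omit [NumberField K] in
theorem cr_iso {n : ℕ} {P Q : Fin n → Fin 2 → K} (h : Isomorphic P Q) (i j k l : Fin n) :
    cr (Q i) (Q j) (Q k) (Q l) = cr (P i) (P j) (P k) (P l) := by
  obtain ⟨a, b, c, d, u, hD, hu, hQ⟩ := h
  have e : u i * u j * u k * u l * (a * d - b * c) ^ 2 ≠ 0 :=
    mul_ne_zero (mul_ne_zero (mul_ne_zero (mul_ne_zero (hu i) (hu j)) (hu k)) (hu l))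
      (pow_ne_zero _ hD)
  unfold cr
  simp only [det_iso hQ]
  rw [← mul_div_mul_left (det (P l) (P j) * det (P k) (P i)) _ e]
  congr 1 <;> ring

theorem unitAt_of_good {n : ℕ} {P : Fin n → Fin 2 → K} {v : HeightOneSpectrum (𝓞 K)}
    (h : GoodAt v P) {i j k l : Fin n} (hij : i ≠ j) (hik : i ≠ k) (hil : i ≠ l) (hjk : j ≠ k)
    (hjl : j ≠ l) (hkl : k ≠ l) : UnitAt v (cr (P i) (P j) (P k) (P l)) := by
  obtain ⟨Q, hPQ, -, hQ⟩ := h
  have hne : ∀ i j, i ≠ j → det (Q i) (Q j) ≠ 0 := by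
    intro i j hij h0
    have := hQ i j hij
    rw [h0, map_zero] at this
    exact zero_ne_one this
  rw [← cr_iso hPQ]
  constructor
  · unfold cr
    rw [map_div₀, map_mul, map_mul, hQ l j hjl.symm, hQ k i hik.symm, hQ l i hil.symm,
      hQ k j hjk.symm]
    simp
  · rw [cr_sub_one (hne l i hil.symm) (hne k j hjk.symm), map_div₀, Valuation.map_neg, map_mul,
      map_mul, hQ l k hkl.symm, hQ i j hij, hQ l i hil.symm, hQ k j hjk.symm]
    simp

/-- the normal form -/
noncomputable def nf {n : ℕ} (P : Fin n → Fin 2 → K) (i₀ i₁ i₂ : Fin n) : Fin n → Fin 2 → K :=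
  fun i => if i = i₀ then ![1, 0] else ![cr (P i₀) (P i₁) (P i₂) (P i), 1]

omit [NumberField K] in
theorem iso_nf {n : ℕ} {P : Fin n → Fin 2 → K} (hP : Distinct P) {i₀ i₁ i₂ : Fin n}
    (h01 : i₀ ≠ i₁) (h02 : i₀ ≠ i₂) (h12 : i₁ ≠ i₂) : Isomorphic P (nf P i₀ i₁ i₂) := by
  classical
  set A := det (P i₂) (P i₀) with hA
  set B := det (P i₂) (P i₁) with hB
  have hA0 : A ≠ 0 := hP _ _ h02.symm
  have hB0 : B ≠ 0 := hP _ _ h12.symm
  refine ⟨P i₁ 1 * A, -(P i₁ 0) * A, P i₀ 1 * B, -(P i₀ 0) * B,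
    fun i => if i = i₀ then (det (P i₀) (P i₁) * A)⁻¹ else (det (P i) (P i₀) * B)⁻¹, ?_, ?_, ?_⟩
  · have e : P i₁ 1 * A * (-(P i₀ 0) * B) - -(P i₁ 0) * A * (P i₀ 1 * B) =
        A * B * det (P i₁) (P i₀) := by
      unfold det
      ring
    rw [e]
    exact mul_ne_zero (mul_ne_zero hA0 hB0) (hP _ _ h01.symm)
  · intro i
    dsimp only
    split_ifs with h
    · exact inv_ne_zero (mul_ne_zero (hP _ _ h01) hA0)
    · exact inv_ne_zero (mul_ne_zero (hP _ _ h) hB0)
  · intro i
    unfold nf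
    by_cases h : i = i₀
    · subst h
      simp only [if_true, Matrix.cons_val_zero, Matrix.cons_val_one]
      have h1 : det (P i) (P i₁) * A ≠ 0 := mul_ne_zero (hP _ _ h01) hA0
      have e1 : P i₁ 1 * A * P i 0 + -(P i₁ 0) * A * P i 1 = det (P i) (P i₁) * A := by
        unfold det
        ring
      have e2 : P i 1 * B * P i 0 + -(P i 0) * B * P i 1 = 0 := by ring
      rw [e1, e2]
      exact ⟨(inv_mul_cancel₀ h1).symm, (mul_zero _).symm⟩
    · simp only [if_neg h, Matrix.cons_val_zero, Matrix.cons_val_one]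
      have h1 : det (P i) (P i₀) * B ≠ 0 := mul_ne_zero (hP _ _ h) hB0
      have e1 : P i₁ 1 * A * P i 0 + -(P i₁ 0) * A * P i 1 = det (P i) (P i₁) * A := by
        unfold det
        ring
      have e2 : P i₀ 1 * B * P i 0 + -(P i₀ 0) * B * P i 1 = det (P i) (P i₀) * B := by
        unfold det
        ring
      rw [e1, e2]
      refine ⟨?_, (inv_mul_cancel₀ h1).symm⟩
      unfold cr
      rw [← hA, ← hB, div_eq_inv_mul]

omit [NumberField K] in
theorem cr_zero {x y z : Fin 2 → K} : cr x y z y = 0 := by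
  unfold cr
  rw [det_self, zero_mul, zero_div]

omit [NumberField K] in
theorem cr_one {x y z : Fin 2 → K} (h1 : det z x ≠ 0) (h2 : det z y ≠ 0) : cr x y z z = 1 := by
  unfold cr
  rw [mul_comm]
  exact div_self (mul_ne_zero h1 h2)

/-- all cross ratios are units and not congruent to `1`: good reduction -/
theorem good_of_unitAt {n : ℕ} {P : Fin n → Fin 2 → K} (hP : Distinct P)
    {v : HeightOneSpectrum (𝓞 K)} {i₀ i₁ i₂ : Fin n}
    (h01 : i₀ ≠ i₁) (h02 : i₀ ≠ i₂) (h12 : i₁ ≠ i₂)
    (h : ∀ i j, i ≠ i₀ → i ≠ i₁ → j ≠ i₀ → j ≠ i₁ → i ≠ j →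
      UnitAt v (cr (P i₀) (P i₁) (P i) (P j))) : GoodAt v P := by
  set lam : Fin n → K := fun i => cr (P i₀) (P i₁) (P i₂) (P i) with hlam
  have hu : ∀ i, i ≠ i₀ → i ≠ i₁ → v.valuation K (lam i) = 1 := by
    intro i h0 h1
    by_cases h2 : i = i₂
    · rw [h2, hlam]
      dsimp only
      rw [cr_one (hP _ _ h02.symm) (hP _ _ h12.symm), map_one]
    · exact (h i₂ i h02.symm h12.symm h0 h1 (Ne.symm h2)).1
  have hint : ∀ i, i ≠ i₀ → v.valuation K (lam i) ≤ 1 := by
    intro i h0
    by_cases h1 : i = i₁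
    · rw [h1, hlam]
      dsimp only
      rw [cr_zero, map_zero]
      exact zero_le_one
    · exact (hu i h0 h1).le
  have hl1 : lam i₁ = 0 := by
    rw [hlam]
    dsimp only
    exact cr_zero
  have hsub : ∀ i j, i ≠ i₀ → j ≠ i₀ → i ≠ j → v.valuation K (lam i - lam j) = 1 := by
    intro i j h0 h0' hij
    by_cases h1 : i = i₁
    · rw [h1, hl1, zero_sub, Valuation.map_neg]
      exact hu j h0' (fun h' => hij (h1.trans h'.symm))
    by_cases h1' : j = i₁
    · rw [h1', hl1, sub_zero]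
      exact hu i h0 h1
    have e : lam i - lam j = lam j * (cr (P i₀) (P i₁) (P j) (P i) - 1) := by
      have g1 := hP i i₀ h0
      have g2 := hP j i₀ h0'
      have g3 := hP j i₁ h1'
      have g4 := hP i₂ i₁ h12.symm
      rw [hlam]
      dsimp only
      unfold cr
      field_simp
    rw [e, map_mul, hu j h0' h1', (h j i h0' h1' h0 h1 (Ne.symm hij)).2, mul_one]
  refine ⟨nf P i₀ i₁ i₂, iso_nf hP h01 h02 h12, ?_, ?_⟩
  · intro i j
    unfold nf
    by_cases h0 : i = i₀
    · rw [if_pos h0]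
      fin_cases j
      · show v.valuation K 1 ≤ 1
        rw [map_one]
      · show v.valuation K 0 ≤ 1
        rw [map_zero]
        exact zero_le_one
    · rw [if_neg h0]
      fin_cases j
      · exact hint i h0
      · show v.valuation K 1 ≤ 1
        rw [map_one]
  · intro i j hij
    unfold nf
    by_cases h0 : i = i₀
    · have h0' : j ≠ i₀ := fun h' => hij (h0.trans h'.symm)
      rw [if_pos h0, if_neg h0']
      have e : det ![(1 : K), 0] ![cr (P i₀) (P i₁) (P i₂) (P j), 1] = 1 := by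
        unfold det
        simp
      rw [e, map_one]
    · by_cases h0' : j = i₀
      · rw [if_neg h0, if_pos h0']
        have e : det ![cr (P i₀) (P i₁) (P i₂) (P i), 1] ![(1 : K), 0] = -1 := by
          unfold det
          simp
        rw [e, Valuation.map_neg, map_one]
      · rw [if_neg h0, if_neg h0']
        have e : det ![cr (P i₀) (P i₁) (P i₂) (P i), 1] ![cr (P i₀) (P i₁) (P i₂) (P j), 1] =
            lam i - lam j := by
          unfold det
          simp [hlam]
        rw [e]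
        exact hsub i j h0 h0' hij

omit [NumberField K] in
theorem cr_off {n : ℕ} {P : Fin n → Fin 2 → K} (hP : Distinct P) {i j k l : Fin n}
    (hij : i ≠ j) (hik : i ≠ k) (hil : i ≠ l) (hjk : j ≠ k)
    (hjl : j ≠ l) (hkl : k ≠ l) :
    cr (P i) (P j) (P k) (P l) ≠ 0 ∧ cr (P i) (P j) (P k) (P l) ≠ 1 := by
  have g1 := hP l i hil.symm
  have g2 := hP k j hjk.symm
  constructor
  · unfold cr
    exact div_ne_zero (mul_ne_zero (hP l j hjl.symm) (hP k i hik.symm)) (mul_ne_zero g1 g2)
  · rw [← sub_ne_zero, cr_sub_one g1 g2]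
    exact div_ne_zero (neg_ne_zero.2 (mul_ne_zero (hP l k hkl.symm) (hP i j hij)))
      (mul_ne_zero g1 g2)

/-- finitely many normal forms -/
theorem finite_forms {L : Set K} (hL : L.Finite) :
    ∃ F : Set (Σ n : ℕ, Fin n → Fin 2 → K), F.Finite ∧
      ∀ (n : ℕ) (P : Fin n → Fin 2 → K), 3 ≤ n → Distinct P →
        (∀ i j k l : Fin n, i ≠ j → i ≠ k → i ≠ l → j ≠ k → j ≠ l → k ≠ l →
          cr (P i) (P j) (P k) (P l) ∈ L) →
        ∃ Q, (⟨n, Q⟩ : Σ n : ℕ, Fin n → Fin 2 → K) ∈ F ∧ Isomorphic P Q := by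
  classical
  set V : Set (Fin 2 → K) := insert ![1, 0] ((fun x : K => ![x, 1]) '' (L ∪ {0, 1})) with hV
  have hVf : V.Finite := ((hL.union (Set.toFinite _)).image _).insert _
  refine ⟨⋃ n ∈ Set.Iic V.ncard, (fun Q => (⟨n, Q⟩ : Σ n : ℕ, Fin n → Fin 2 → K)) ''
    {Q : Fin n → Fin 2 → K | ∀ i, Q i ∈ V}, ?_, ?_⟩
  · refine Set.Finite.biUnion (Set.finite_Iic _) fun n _ => Set.Finite.image _ ?_
    exact Set.Finite.pi' fun _ => hVf
  · intro n P hn hP hcr
    obtain ⟨i₀, i₁, i₂, h01, h02, h12⟩ : ∃ i₀ i₁ i₂ : Fin n, i₀ ≠ i₁ ∧ i₀ ≠ i₂ ∧ i₁ ≠ i₂ := by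
      refine ⟨⟨0, by omega⟩, ⟨1, by omega⟩, ⟨2, by omega⟩, ?_, ?_, ?_⟩ <;>
      · rw [Ne, Fin.mk.injEq]
        omega
    have hiso := iso_nf hP h01 h02 h12
    have hmem : ∀ i, nf P i₀ i₁ i₂ i ∈ V := by
      intro i
      unfold nf
      by_cases h0 : i = i₀
      · rw [if_pos h0]
        exact Set.mem_insert _ _
      · rw [if_neg h0]
        refine Set.mem_insert_of_mem _ ⟨_, ?_, rfl⟩
        by_cases h1 : i = i₁
        · rw [h1, cr_zero]
          simp
        · by_cases h2 : i = i₂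
          · rw [h2, cr_one (hP _ _ h02.symm) (hP _ _ h12.symm)]
            simp
          · exact Or.inl (hcr i₀ i₁ i₂ i h01 h02 (Ne.symm h0) h12 (Ne.symm h1) (Ne.symm h2))
    refine ⟨nf P i₀ i₁ i₂, ?_, hiso⟩
    rw [Set.mem_iUnion₂]
    refine ⟨n, ?_, nf P i₀ i₁ i₂, hmem, rfl⟩
    rw [Set.mem_Iic]
    have hd := distinct_iso hP hiso
    have hinj : Function.Injective (nf P i₀ i₁ i₂) := by
      intro i j hij
      by_contra hne
      have := hd i j hne
      rw [hij, det_self] at this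
      exact this rfl
    have h1 : (Set.range (nf P i₀ i₁ i₂)).ncard ≤ V.ncard :=
      Set.ncard_le_ncard (by rintro _ ⟨i, rfl⟩; exact hmem i) hVf
    have h2 : (Set.range (nf P i₀ i₁ i₂)).ncard = n := by
      rw [← Set.image_univ, Set.ncard_image_of_injective _ hinj, Set.ncard_univ, Nat.card_eq_fintype_card,
        Fintype.card_fin]
    omega

/-! ### elliptic curves -/

/-- the three points of order 2 of the curve `W` are defined over `K` -/
def FullTwoTorsion (W : WeierstrassCurve K) : Prop :=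
  ∃ a b c : K, ∀ x : K, 4 * x ^ 3 + W.b₂ * x ^ 2 + 2 * W.b₄ * x + W.b₆ =
    4 * (x - a) * (x - b) * (x - c)

/-- the `j`-invariant of the curve with the parameter `x` of Legendre -/
noncomputable def jL (x : K) : K := 256 * (x ^ 2 - x + 1) ^ 3 / (x ^ 2 * (x - 1) ^ 2)

theorem legendre (W : WeierstrassCurve K) [hW : W.IsElliptic] (h : FullTwoTorsion W) :
    ∃ x : K, (x ≠ 0 ∧ x ≠ 1) ∧ W.j = jL x := by
  obtain ⟨a, b, c, h⟩ := h
  have k0 := h 0
  have k1 := h 1
  have k2 := h (-1)
  have e6 : W.b₆ = -4 * a * b * c := by linear_combination k0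
  have e2 : W.b₂ = -4 * (a + b + c) := by
    linear_combination (1 / 2 : K) * k1 + (1 / 2 : K) * k2 - k0
  have e4 : W.b₄ = 2 * (a * b + a * c + b * c) := by
    linear_combination (1 / 4 : K) * k1 - (1 / 4 : K) * k2
  have e8 : 4 * W.b₈ = W.b₂ * W.b₆ - W.b₄ ^ 2 := W.b_relation
  have hΔ : W.Δ = 16 * ((b - a) * (c - a) * (c - b)) ^ 2 := by
    have h4 : 4 * W.Δ = 4 * (16 * ((b - a) * (c - a) * (c - b)) ^ 2) := by
      unfold WeierstrassCurve.Δ
      have : 4 * (-W.b₂ ^ 2 * W.b₈ - 8 * W.b₄ ^ 3 - 27 * W.b₆ ^ 2 + 9 * W.b₂ * W.b₄ * W.b₆) =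
          -W.b₂ ^ 2 * (4 * W.b₈) - 32 * W.b₄ ^ 3 - 108 * W.b₆ ^ 2 +
            36 * W.b₂ * W.b₄ * W.b₆ := by ring
      rw [this, e8, e2, e4, e6]
      ring
    exact mul_left_cancel₀ (by norm_num) h4
  have hc : W.c₄ = 16 * ((a + b + c) ^ 2 - 3 * (a * b + a * c + b * c)) := by
    unfold WeierstrassCurve.c₄
    rw [e2, e4]
    ring
  have hΔ0 : W.Δ ≠ 0 := by
    rw [← W.coe_Δ']
    exact W.Δ'.ne_zero
  have hne : (b - a) * (c - a) * (c - b) ≠ 0 := by
    intro h0
    apply hΔ0
    rw [hΔ, h0]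
    ring
  have hba : b - a ≠ 0 := fun h0 => hne (by rw [h0]; ring)
  have hca : c - a ≠ 0 := fun h0 => hne (by rw [h0]; ring)
  have hcb : c - b ≠ 0 := fun h0 => hne (by rw [h0]; ring)
  refine ⟨(c - a) / (b - a), ⟨div_ne_zero hca hba, fun h1 => hcb ?_⟩, ?_⟩
  · rw [div_eq_one_iff_eq hba] at h1
    linear_combination h1
  · have hj : W.j = W.c₄ ^ 3 / W.Δ := by
      unfold WeierstrassCurve.j
      rw [Units.val_inv_eq_inv_val, W.coe_Δ', div_eq_inv_mul]
    have h1 : (c - a) / (b - a) - 1 = (c - b) / (b - a) := by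
      rw [div_sub_one hba]
      congr 1
      ring
    rw [hj, hΔ, hc]
    unfold jL
    rw [h1]
    field_simp
    ring

theorem unitAt_of_j {v : HeightOneSpectrum (𝓞 K)} (h2 : v.valuation K 2 = 1) {x : K}
    (hx : x ≠ 0 ∧ x ≠ 1) (h : v.valuation K (jL x) ≤ 1) : UnitAt v x := by
  have hx0 : v.valuation K x ≠ 0 := (Valuation.ne_zero_iff _).2 hx.1
  have hx1 : v.valuation K (x - 1) ≠ 0 := (Valuation.ne_zero_iff _).2 (sub_ne_zero.2 hx.2)
  have h256 : v.valuation K 256 = 1 := by
    have : (256 : K) = 2 ^ 8 := by norm_num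
    rw [this, map_pow, h2, one_pow]
  have hj : v.valuation K (jL x) = v.valuation K (x ^ 2 - x + 1) ^ 3 /
      (v.valuation K x ^ 2 * v.valuation K (x - 1) ^ 2) := by
    unfold jL
    rw [map_div₀, map_mul, map_mul, map_pow, map_pow, map_pow, h256, one_mul]
  rw [hj] at h
  have hpos : 0 < v.valuation K x ^ 2 * v.valuation K (x - 1) ^ 2 :=
    zero_lt_iff.2 (mul_ne_zero (pow_ne_zero _ hx0) (pow_ne_zero _ hx1))
  rw [div_le_one₀ hpos] at h
  have e3 : x ^ 2 - x + 1 = x * (x - 1) + 1 := by ring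
  have e4 : x - 1 = x + -1 := sub_eq_add_neg x 1
  have em : v.valuation K (-1) = 1 := by rw [Valuation.map_neg, map_one]
  -- the absolute value of `x`
  have hle : v.valuation K x ≤ 1 := by
    by_contra hcon
    rw [not_le] at hcon
    have e1 : v.valuation K (x - 1) = v.valuation K x := by
      rw [e4]
      exact Valuation.map_add_eq_of_lt_left _ (by rw [em]; exact hcon)
    have e2 : v.valuation K (x ^ 2 - x + 1) = v.valuation K x ^ 2 := by
      have e5 : v.valuation K (x * (x - 1)) = v.valuation K x ^ 2 := by rw [map_mul, e1, sq]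
      rw [e3, ← e5]
      refine Valuation.map_add_eq_of_lt_left _ ?_
      rw [e5, map_one]
      exact one_lt_pow₀ hcon two_ne_zero
    rw [e1, e2, ← pow_mul, ← pow_add] at h
    exact absurd h (not_le.2 (pow_lt_pow_right₀ hcon (by norm_num)))
  have hle1 : v.valuation K (x - 1) ≤ 1 := by
    rw [e4]
    exact (Valuation.map_add _ _ _).trans (max_le hle em.le)
  have key : v.valuation K (x * (x - 1)) < 1 → v.valuation K (x ^ 2 - x + 1) = 1 := by
    intro hlt
    rw [e3, ← map_one (v.valuation K)]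
    exact Valuation.map_add_eq_of_lt_right _ (by rw [map_one]; exact hlt)
  have hx1' : v.valuation K x = 1 := by
    refine le_antisymm hle (not_lt.1 fun hlt => ?_)
    have e1 : v.valuation K (x - 1) = 1 := by
      rw [e4, ← em]
      exact Valuation.map_add_eq_of_lt_right _ (by rw [em]; exact hlt)
    rw [e1, key (by rw [map_mul, e1, mul_one]; exact hlt), one_pow, one_pow, mul_one] at h
    exact absurd h (not_le.2 (pow_lt_one₀ zero_le hlt (by norm_num)))
  refine ⟨hx1', le_antisymm hle1 (not_lt.1 fun hlt => ?_)⟩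
  rw [hx1', key (by rw [map_mul, hx1', one_mul]; exact hlt), one_pow, one_pow, one_mul] at h
  exact absurd h (not_le.2 (pow_lt_one₀ zero_le hlt (by norm_num)))

/-! ### the theorem -/

/-- **Random primes of bad reduction.** Let `K` be a number field, `S₀` a finite set of primes of
`K` and `τ > 2/3`. Let `T = {v | ω ∈ E v}` be a random set of primes, where the events `E v` are
independent, of probability at most `N(v) ^ (-τ)`.

(1) With probability one there are finitely many `n`-tuples of points, `n ≥ 3` arbitrary, such that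
each `n`-tuple, `n ≥ 3`, of distinct points of the projective line over `K` with good reduction
outside `S₀ ∪ T` is isomorphic to one of them.

(2) If `S₀` contains the primes above `2`, then with probability one the set of the `j`-invariants
of the elliptic curves over `K` with full 2-torsion over `K` whose `j`-invariant is integral
outside `S₀ ∪ T` is finite.

(3) For `0 < δ < τ - 2/3` there is a constant `C`, depending on `K`, `S₀`, `τ` and `δ` only, such that
for every `R > 0` with probability at least `1 - C R ^ (-δ)` all `n`-tuples of distinct points,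
`n ≥ 3` arbitrary, which have good reduction outside `S₀` and the primes of `T` of norm at least
`R` have good reduction outside `S₀`. -/
theorem result (K : Type) [Field K] [NumberField K] (S₀ : Set (HeightOneSpectrum (𝓞 K)))
    (hS₀ : S₀.Finite) (τ : ℝ) (hτ : 2 / 3 < τ) :
    (∀ (Ω : Type) [MeasurableSpace Ω] (μ : Measure Ω) (E : HeightOneSpectrum (𝓞 K) → Set Ω),
      iIndepSet E μ → (∀ v, μ (E v) ≤ ENNReal.ofReal (norm v ^ (-τ))) →
      (∀ᵐ ω ∂μ, ∃ F : Set (Σ n : ℕ, Fin n → Fin 2 → K), F.Finite ∧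
        ∀ (n : ℕ) (P : Fin n → Fin 2 → K), 3 ≤ n → Distinct P →
          (∀ v, v ∉ S₀ → ω ∉ E v → GoodAt v P) →
          ∃ Q, (⟨n, Q⟩ : Σ n : ℕ, Fin n → Fin 2 → K) ∈ F ∧ Isomorphic P Q) ∧
      ((∀ v : HeightOneSpectrum (𝓞 K), v ∉ S₀ → v.valuation K 2 = 1) →
        ∀ᵐ ω ∂μ, {j : K | ∃ (W : WeierstrassCurve K) (_ : W.IsElliptic), FullTwoTorsion W ∧
          W.j = j ∧ ∀ v, v ∉ S₀ → ω ∉ E v → v.valuation K j ≤ 1}.Finite)) ∧
    (∀ δ : ℝ, 0 < δ → δ < τ - 2 / 3 → ∃ C : ℝ, 0 < C ∧
      ∀ (Ω : Type) [MeasurableSpace Ω] (μ : Measure Ω) (E : HeightOneSpectrum (𝓞 K) → Set Ω),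
      iIndepSet E μ → (∀ v, μ (E v) ≤ ENNReal.ofReal (norm v ^ (-τ))) → ∀ R : ℝ, 0 < R →
      μ {ω | ¬ ∀ (n : ℕ) (P : Fin n → Fin 2 → K), 3 ≤ n → Distinct P →
        (∀ v, v ∉ S₀ → ¬ (R ≤ norm v ∧ ω ∈ E v) → GoodAt v P) → ∀ v, v ∉ S₀ → GoodAt v P} ≤
          ENNReal.ofReal (C * R ^ (-δ))) := by
  refine ⟨fun Ω _ μ E hi hE => ⟨?_, fun h2 => ?_⟩, fun δ hδ hδτ => ?_⟩
  · filter_upwards [Pool.Agent.X61.RI.units_finite S₀ hS₀ hτ hi hE] with ω hω
    obtain ⟨F, hF, h⟩ := finite_forms hω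
    refine ⟨F, hF, fun n P hn hP hg => h n P hn hP ?_⟩
    intro i j k l hij hik hil hjk hjl hkl
    exact ⟨cr_off hP hij hik hil hjk hjl hkl, fun v hv hv' =>
      unitAt_of_good (hg v hv hv') hij hik hil hjk hjl hkl⟩
  · filter_upwards [Pool.Agent.X61.RI.units_finite S₀ hS₀ hτ hi hE] with ω hω
    refine (hω.image jL).subset ?_
    rintro j ⟨W, hW, hW2, hj, hv⟩
    obtain ⟨x, hx, hjx⟩ := legendre W hW2
    refine ⟨x, ⟨hx, fun v hv1 hv2 => unitAt_of_j (h2 v hv1) hx ?_⟩, by rw [← hjx, hj]⟩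
    rw [← hjx, hj]
    exact hv v hv1 hv2
  · obtain ⟨C, hC, h⟩ := Pool.Agent.X61.RI.units_small S₀ hS₀ hδ hδτ
    refine ⟨C, hC, fun Ω _ μ E hi hE R hR => (measure_mono ?_).trans (h μ E hi hE R hR)⟩
    intro ω hω
    by_contra hcon
    apply hω
    intro n P hn hP hg v hv
    obtain ⟨i₀, i₁, i₂, h01, h02, h12⟩ : ∃ i₀ i₁ i₂ : Fin n, i₀ ≠ i₁ ∧ i₀ ≠ i₂ ∧ i₁ ≠ i₂ := by
      refine ⟨⟨0, by omega⟩, ⟨1, by omega⟩, ⟨2, by omega⟩, ?_, ?_, ?_⟩ <;>
      · rw [Ne, Fin.mk.injEq]
        omega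
    refine good_of_unitAt hP h01 h02 h12 fun i j hi0 hi1 hj0 hj1 hij => ?_
    by_contra hu
    exact hcon ⟨cr (P i₀) (P i₁) (P i) (P j),
      cr_off hP h01 (Ne.symm hi0) (Ne.symm hj0) (Ne.symm hi1) (Ne.symm hj1) hij,
      fun w hw hw' => unitAt_of_good (hg w hw hw') h01 (Ne.symm hi0) (Ne.symm hj0) (Ne.symm hi1)
        (Ne.symm hj1) hij, v, hv, hu⟩

end Pool.Agent.Results.MP_f89135_nt.RandomBadReduction
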